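import Mathlib

/-!
# The zero branches of `G_{3,β}` have no common minimiser

For `α = 3` the modulus of the positive real branch is minimal near `β = -0.268`, the modulus of
the two nonreal branches near `β = -1/3`. So no single `β` minimises the moduli of all the
branches `1 ≤ k ≤ α`.
-/

open Complex Set Filter Topology
open scoped ComplexConjugate ContDiff

namespace Pool.Agent.Results.MP_9fecad_an.NoCommonMinimiser

/-- `G_{α,β}(ξ) = ∑_{n=0}^{α+1} C(α+1,n) (-ξ)^n / (n+β)` -/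
noncomputable def G (α : ℕ) (β : ℝ) (ξ : ℂ) : ℂ :=
  ∑ n ∈ Finset.range (α + 2), ((α + 1).choose n : ℂ) * (-ξ) ^ n / ((n : ℂ) + β)

/-- `X 0, ..., X α` are the zero branches of `G_{α,β}`, `-1 < β < 0`, as in the problem: smooth
functions on `(-1,0)` whose disjoint graphs make up the zero set; the branch `X 0` is the negative
real one and `X (α + 1 - k)` is the complex conjugate of `X k` for `1 ≤ k ≤ α`. -/
structure IsBranchSystem (α : ℕ) (X : ℕ → ℝ → ℂ) : Prop where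
  smooth : ∀ k ≤ α, ContDiffOn ℝ ∞ (X k) (Ioo (-1) 0)
  zeros : ∀ β ∈ Ioo (-1 : ℝ) 0, ∀ ξ : ℂ, G α β ξ = 0 ↔ ∃ k ≤ α, X k β = ξ
  distinct : ∀ β ∈ Ioo (-1 : ℝ) 0, ∀ j ≤ α, ∀ k ≤ α, X j β = X k β → j = k
  real0 : ∀ β ∈ Ioo (-1 : ℝ) 0, (X 0 β).im = 0 ∧ (X 0 β).re < 0
  conj_symm : ∀ k, 1 ≤ k → k ≤ α → ∀ β ∈ Ioo (-1 : ℝ) 0, X (α + 1 - k) β = conj (X k β)

/-- the real function -/
noncomputable def gr (β x : ℝ) : ℝ :=
  1 / β - 4 * x / (1 + β) + 6 * x ^ 2 / (2 + β) - 4 * x ^ 3 / (3 + β) + x ^ 4 / (4 + β)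

lemma G3 (β : ℝ) (ξ : ℂ) : G 3 β ξ =
    1 / β - 4 * ξ / (1 + β) + 6 * ξ ^ 2 / (2 + β) - 4 * ξ ^ 3 / (3 + β) + ξ ^ 4 / (4 + β) := by
  have h1 : Nat.choose 4 2 = 6 := rfl
  simp only [G, Finset.sum_range_succ, Finset.sum_range_zero]
  norm_num [Nat.choose, h1]
  ring

lemma G3_ofReal (β x : ℝ) : G 3 β (x : ℂ) = ((gr β x : ℝ) : ℂ) := by
  rw [G3, gr]; push_cast; ring

section signs
variable {β : ℝ} (hβ : β ∈ Ioo (-1 : ℝ) 0)

include hβ in
lemma phi_deriv {x : ℝ} (hx : 0 < x) :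
    HasDerivAt (fun x => x ^ β * gr β x) (x ^ (β - 1) * (1 - x) ^ 4) x := by
  obtain ⟨h1, h2⟩ := hβ
  have e0 : β ≠ 0 := h2.ne
  have e1 : 1 + β ≠ 0 := by linarith
  have e2 : 2 + β ≠ 0 := by linarith
  have e3 : 3 + β ≠ 0 := by linarith
  have e4 : 4 + β ≠ 0 := by linarith
  have hg : HasDerivAt (gr β) (-4 / (1 + β) + 12 * x / (2 + β) - 12 * x ^ 2 / (3 + β) +
      4 * x ^ 3 / (4 + β)) x := by
    unfold gr
    have d1 : HasDerivAt (fun x : ℝ => 1 / β - 4 * x / (1 + β) + 6 * x ^ 2 / (2 + β) -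
        4 * x ^ 3 / (3 + β) + x ^ 4 / (4 + β))
        (0 - 4 * 1 / (1 + β) + 6 * (2 * x ^ 1 * 1) / (2 + β) - 4 * (3 * x ^ 2 * 1) / (3 + β) +
          (4 * x ^ 3 * 1) / (4 + β)) x := by
      refine ((((hasDerivAt_const x (1 / β)).sub
        (((hasDerivAt_id x).const_mul 4).div_const _)).add
        ((((hasDerivAt_id x).pow 2).const_mul 6).div_const _)).sub
        ((((hasDerivAt_id x).pow 3).const_mul 4).div_const _)).add
        (((hasDerivAt_id x).pow 4).div_const _)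
    convert d1 using 1
    ring
  have hp : HasDerivAt (fun x : ℝ => x ^ β) (β * x ^ (β - 1)) x :=
    Real.hasDerivAt_rpow_const (Or.inl hx.ne')
  refine (hp.mul hg).congr_deriv ?_
  have hx' : x ^ β = x ^ (β - 1) * x := by
    rw [← Real.rpow_add_one hx.ne']; ring_nf
  rw [hx', gr]
  field_simp
  ring

include hβ in
lemma phi_mono {x y : ℝ} (hx : 0 < x) (hxy : x < y) : x ^ β * gr β x < y ^ β * gr β y := by
  have hd : ∀ x : ℝ, 0 < x → x ≠ 1 → 0 < deriv (fun x => x ^ β * gr β x) x := by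
    intro x hx h1
    rw [(phi_deriv hβ hx).deriv]
    have h2 : 1 - x ≠ 0 := sub_ne_zero.mpr h1.symm
    have := Real.rpow_pos_of_pos hx (β - 1)
    positivity
  have m1 : StrictMonoOn (fun x => x ^ β * gr β x) (Ioc 0 1) := by
    apply strictMonoOn_of_deriv_pos (convex_Ioc 0 1)
    · intro x hx; exact (phi_deriv hβ hx.1).continuousAt.continuousWithinAt
    · intro x hx
      rw [interior_Ioc] at hx
      exact hd x hx.1 hx.2.ne
  have m2 : StrictMonoOn (fun x => x ^ β * gr β x) (Ici 1) := by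
    apply strictMonoOn_of_deriv_pos (convex_Ici 1)
    · intro x hx
      have : (0:ℝ) < x := lt_of_lt_of_le one_pos hx
      exact (phi_deriv hβ this).continuousAt.continuousWithinAt
    · intro x hx
      rw [interior_Ici] at hx
      have : (0:ℝ) < x := lt_trans one_pos hx
      exact hd x this (ne_of_gt hx)
  rcases le_or_gt y 1 with hy | hy
  · exact m1 ⟨hx, hxy.le.trans hy⟩ ⟨hx.trans hxy, hy⟩ hxy
  · rcases le_or_gt 1 x with h1 | h1
    · exact m2 h1 hy.le hxy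
    · exact (m1 ⟨hx, h1.le⟩ ⟨one_pos, le_rfl⟩ h1).trans (m2 self_mem_Ici hy.le hy)

include hβ in
lemma gr_pos_of {x y : ℝ} (hx : 0 < x) (hxy : x < y) (h : 0 ≤ gr β x) : 0 < gr β y := by
  have h1 := phi_mono hβ hx hxy
  have h2 := Real.rpow_pos_of_pos hx β
  have h3 := Real.rpow_pos_of_pos (hx.trans hxy) β
  have h4 : 0 < y ^ β * gr β y := lt_of_le_of_lt (mul_nonneg h2.le h) h1
  exact (mul_pos_iff_of_pos_left h3).mp h4

end signs

/-! ### the coefficients of the monic quartic -/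

lemma quartic {β : ℝ} (hβ : β ∈ Ioo (-1 : ℝ) 0) (ξ : ℂ) : (4 + β) * G 3 β ξ =
    ξ ^ 4 + ((-4 * (4 + β) / (3 + β) : ℝ) : ℂ) * ξ ^ 3 + ((6 * (4 + β) / (2 + β) : ℝ) : ℂ) * ξ ^ 2 +
    ((-4 * (4 + β) / (1 + β) : ℝ) : ℂ) * ξ + (((4 + β) / β : ℝ) : ℂ) := by
  obtain ⟨h1, h2⟩ := hβ
  have e0 : (β : ℂ) ≠ 0 := by exact_mod_cast h2.ne
  have e1 : (1 + β : ℂ) ≠ 0 := by exact_mod_cast (by linarith : 1 + β ≠ 0)
  have e2 : (2 + β : ℂ) ≠ 0 := by exact_mod_cast (by linarith : 2 + β ≠ 0)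
  have e3 : (3 + β : ℂ) ≠ 0 := by exact_mod_cast (by linarith : 3 + β ≠ 0)
  have e4 : (4 + β : ℂ) ≠ 0 := by exact_mod_cast (by linarith : 4 + β ≠ 0)
  rw [G3]
  push_cast
  field_simp
  ring

/-- Vieta's formulas for a monic quartic with four distinct zeros -/
lemma vieta {a3 a2 a1 a0 x0 x1 x2 x3 : ℂ} (h01 : x0 ≠ x1) (h02 : x0 ≠ x2) (h03 : x0 ≠ x3)
    (h12 : x1 ≠ x2) (h13 : x1 ≠ x3) (h23 : x2 ≠ x3)
    (e0 : x0 ^ 4 + a3 * x0 ^ 3 + a2 * x0 ^ 2 + a1 * x0 + a0 = 0)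
    (e1 : x1 ^ 4 + a3 * x1 ^ 3 + a2 * x1 ^ 2 + a1 * x1 + a0 = 0)
    (e2 : x2 ^ 4 + a3 * x2 ^ 3 + a2 * x2 ^ 2 + a1 * x2 + a0 = 0)
    (e3 : x3 ^ 4 + a3 * x3 ^ 3 + a2 * x3 ^ 2 + a1 * x3 + a0 = 0) :
    a3 = -(x0 + x1 + x2 + x3) ∧
    a2 = x0 * x1 + x0 * x2 + x0 * x3 + x1 * x2 + x1 * x3 + x2 * x3 ∧
    a1 = -(x0 * x1 * x2 + x0 * x1 * x3 + x0 * x2 * x3 + x1 * x2 * x3) ∧
    a0 = x0 * x1 * x2 * x3 := by
  have s : ∀ {u v : ℂ}, u ≠ v → u - v ≠ 0 := fun h => sub_ne_zero.mpr h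
  have d01 : x0 ^ 3 + x0 ^ 2 * x1 + x0 * x1 ^ 2 + x1 ^ 3 + a3 * (x0 ^ 2 + x0 * x1 + x1 ^ 2) +
      a2 * (x0 + x1) + a1 = 0 := by
    apply mul_left_cancel₀ (s h01)
    linear_combination e0 - e1
  have d02 : x0 ^ 3 + x0 ^ 2 * x2 + x0 * x2 ^ 2 + x2 ^ 3 + a3 * (x0 ^ 2 + x0 * x2 + x2 ^ 2) +
      a2 * (x0 + x2) + a1 = 0 := by
    apply mul_left_cancel₀ (s h02)
    linear_combination e0 - e2
  have d03 : x0 ^ 3 + x0 ^ 2 * x3 + x0 * x3 ^ 2 + x3 ^ 3 + a3 * (x0 ^ 2 + x0 * x3 + x3 ^ 2) +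
      a2 * (x0 + x3) + a1 = 0 := by
    apply mul_left_cancel₀ (s h03)
    linear_combination e0 - e3
  have d012 : x0 ^ 2 + x1 ^ 2 + x2 ^ 2 + x0 * x1 + x0 * x2 + x1 * x2 + a3 * (x0 + x1 + x2) + a2 = 0 := by
    apply mul_left_cancel₀ (s h12)
    linear_combination d01 - d02
  have d013 : x0 ^ 2 + x1 ^ 2 + x3 ^ 2 + x0 * x1 + x0 * x3 + x1 * x3 + a3 * (x0 + x1 + x3) + a2 = 0 := by
    apply mul_left_cancel₀ (s h13)
    linear_combination d01 - d03
  have d : x0 + x1 + x2 + x3 + a3 = 0 := by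
    apply mul_left_cancel₀ (s h23)
    linear_combination d012 - d013
  have r3 : a3 = -(x0 + x1 + x2 + x3) := by linear_combination d
  have r2 : a2 = x0 * x1 + x0 * x2 + x0 * x3 + x1 * x2 + x1 * x3 + x2 * x3 := by
    rw [r3] at d012
    linear_combination d012
  have r1 : a1 = -(x0 * x1 * x2 + x0 * x1 * x3 + x0 * x2 * x3 + x1 * x2 * x3) := by
    rw [r3, r2] at d01
    linear_combination d01
  refine ⟨r3, r2, r1, ?_⟩
  rw [r3, r2, r1] at e0
  linear_combination e0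

/-- the resolvent of the quartic, `∏_{i<j} (s - x_i x_j)` -/
def T (a3 a2 a1 a0 s : ℝ) : ℝ :=
  (s ^ 2 + a0 - a2 * s) * (s ^ 2 - a0) ^ 2 - s ^ 2 * (a1 - s * a3) * (a1 * s - a3 * a0)

lemma T_factor (n p u v s : ℝ) :
    T (-(n + p + 2 * u)) (n * p + 2 * u * (n + p) + (u ^ 2 + v ^ 2))
      (-(2 * u * (n * p) + (n + p) * (u ^ 2 + v ^ 2))) (n * p * (u ^ 2 + v ^ 2)) s =
    (s - n * p) * (s - (u ^ 2 + v ^ 2)) * ((s - n * u) ^ 2 + (n * v) ^ 2) *
      ((s - p * u) ^ 2 + (p * v) ^ 2) := by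
  unfold T
  ring

/-- the coefficients -/
noncomputable def c3 (β : ℝ) : ℝ := -4 * (4 + β) / (3 + β)
noncomputable def c2 (β : ℝ) : ℝ := 6 * (4 + β) / (2 + β)
noncomputable def c1 (β : ℝ) : ℝ := -4 * (4 + β) / (1 + β)
noncomputable def c0 (β : ℝ) : ℝ := (4 + β) / β

lemma data {X : ℕ → ℝ → ℂ} (hX : IsBranchSystem 3 X) {β : ℝ} (hβ : β ∈ Ioo (-1 : ℝ) 0) :
    ∃ n p u v : ℝ, n < 0 ∧ 0 < p ∧ X 2 β = (p : ℂ) ∧ X 1 β = u + v * I ∧ gr β p = 0 ∧
      c3 β = -(n + p + 2 * u) ∧ c2 β = n * p + 2 * u * (n + p) + (u ^ 2 + v ^ 2) ∧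
      c1 β = -(2 * u * (n * p) + (n + p) * (u ^ 2 + v ^ 2)) ∧ c0 β = n * p * (u ^ 2 + v ^ 2) := by
  obtain ⟨h0i, h0r⟩ := hX.real0 β hβ
  have hc2 := hX.conj_symm 2 (by norm_num) (by norm_num) β hβ
  have hc1 := hX.conj_symm 1 (by norm_num) (by norm_num) β hβ
  norm_num at hc2 hc1
  have e4 : ((4:ℂ) + β) ≠ 0 := by
    have : (4:ℝ) + β ≠ 0 := by have := hβ.1; linarith
    exact_mod_cast this
  have hroot : ∀ k ≤ 3, (X k β) ^ 4 + ((c3 β : ℝ) : ℂ) * (X k β) ^ 3 + ((c2 β : ℝ) : ℂ) * (X k β) ^ 2 +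
      ((c1 β : ℝ) : ℂ) * (X k β) + ((c0 β : ℝ) : ℂ) = 0 := by
    intro k hk
    have h1 : G 3 β (X k β) = 0 := (hX.zeros β hβ _).mpr ⟨k, hk, rfl⟩
    have h2 := quartic hβ (X k β)
    rw [h1, mul_zero] at h2
    exact h2.symm
  have hne : ∀ j ≤ 3, ∀ k ≤ 3, j ≠ k → X j β ≠ X k β := fun j hj k hk h h' =>
    h (hX.distinct β hβ j hj k hk h')
  obtain ⟨r3, r2, r1, r0⟩ := vieta (hne 0 (by norm_num) 1 (by norm_num) (by norm_num))
    (hne 0 (by norm_num) 2 (by norm_num) (by norm_num))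
    (hne 0 (by norm_num) 3 (by norm_num) (by norm_num))
    (hne 1 (by norm_num) 2 (by norm_num) (by norm_num))
    (hne 1 (by norm_num) 3 (by norm_num) (by norm_num))
    (hne 2 (by norm_num) 3 (by norm_num) (by norm_num))
    (hroot 0 (by norm_num)) (hroot 1 (by norm_num)) (hroot 2 (by norm_num)) (hroot 3 (by norm_num))
  -- real coordinates
  have hX0 : X 0 β = ((X 0 β).re : ℂ) := by
    apply Complex.ext <;> simp [h0i]
  have h2i : (X 2 β).im = 0 := by
    have := congrArg Complex.im hc2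
    rw [Complex.conj_im] at this
    linarith
  have hX2 : X 2 β = ((X 2 β).re : ℂ) := by
    apply Complex.ext <;> simp [h2i]
  have hX1 : X 1 β = ((X 1 β).re : ℂ) + ((X 1 β).im : ℂ) * I := (Complex.re_add_im _).symm
  have hX3 : X 3 β = ((X 1 β).re : ℂ) - ((X 1 β).im : ℂ) * I := by
    rw [hc1]; apply Complex.ext <;> simp
  set n := (X 0 β).re
  set p := (X 2 β).re
  set u := (X 1 β).re
  set v := (X 1 β).im
  rw [hX0, hX2, hX1, hX3] at r3 r2 r1 r0
  have hI : (I:ℂ) ^ 2 = -1 := Complex.I_sq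
  have q3 : c3 β = -(n + p + 2 * u) := by
    have : ((c3 β : ℝ) : ℂ) = ((-(n + p + 2 * u) : ℝ) : ℂ) := by
      rw [r3]; push_cast; ring
    exact_mod_cast this
  have q2 : c2 β = n * p + 2 * u * (n + p) + (u ^ 2 + v ^ 2) := by
    have : ((c2 β : ℝ) : ℂ) = ((n * p + 2 * u * (n + p) + (u ^ 2 + v ^ 2) : ℝ) : ℂ) := by
      rw [r2]; push_cast; linear_combination (-(v:ℂ) ^ 2) * hI
    exact_mod_cast this
  have q1 : c1 β = -(2 * u * (n * p) + (n + p) * (u ^ 2 + v ^ 2)) := by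
    have : ((c1 β : ℝ) : ℂ) = ((-(2 * u * (n * p) + (n + p) * (u ^ 2 + v ^ 2)) : ℝ) : ℂ) := by
      rw [r1]; push_cast; linear_combination ((n + p : ℂ) * (v:ℂ) ^ 2) * hI
    exact_mod_cast this
  have q0 : c0 β = n * p * (u ^ 2 + v ^ 2) := by
    have : ((c0 β : ℝ) : ℂ) = ((n * p * (u ^ 2 + v ^ 2) : ℝ) : ℂ) := by
      rw [r0]; push_cast; linear_combination (-(n * p : ℂ) * (v:ℂ) ^ 2) * hI
    exact_mod_cast this
  have hneg : c0 β < 0 := by
    unfold c0
    apply div_neg_of_pos_of_neg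
    · have := hβ.1; linarith
    · exact hβ.2
  have hp : 0 < p := by
    by_contra hcon
    push Not at hcon
    have h1 : 0 ≤ n * p := mul_nonneg_of_nonpos_of_nonpos h0r.le hcon
    have h2 : 0 ≤ n * p * (u ^ 2 + v ^ 2) := mul_nonneg h1 (by positivity)
    linarith
  have hg : gr β p = 0 := by
    have h1 : G 3 β (X 2 β) = 0 := (hX.zeros β hβ _).mpr ⟨2, by norm_num, rfl⟩
    rw [hX2, G3_ofReal] at h1
    exact_mod_cast h1
  exact ⟨n, p, u, v, h0r, hp, hX2, hX1, hg, q3, q2, q1, q0⟩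

/-! ### the inequalities -/

/-- sign of `gr` at `3735/1000` -/
lemma gr_neg {β : ℝ} (h1 : -1 < β) (h2 : β ≤ -3 / 10) : gr β (3735 / 1000) < 0 := by
  set b := -β with hb
  have hb1 : b < 1 := by linarith
  have hb3 : 3 / 10 ≤ b := by linarith
  have e0 : β < 0 := by linarith
  have key : gr β (3735 / 1000) * (β * (1 + β) * (2 + β) * (3 + β) * (4 + β)) * (7 / 10) ^ 4 =
      (1961840948841/16000000000000) * (1 - b)^4 + (10005835699193/800000000000) * (b - 3/10) * (1 - b)^3 +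
      (26384892699611/160000000000) * (b - 3/10)^2 * (1 - b)^2 +
      (1829811204633/8000000000) * (b - 3/10)^3 * (1 - b) + (2241/25) * (b - 3/10)^4 := by
    have e1 : 1 + β ≠ 0 := by linarith
    have e2 : 2 + β ≠ 0 := by linarith
    have e3 : 3 + β ≠ 0 := by linarith
    have e4 : 4 + β ≠ 0 := by linarith
    have e0' := e0.ne
    rw [gr, hb]
    field_simp
    ring
  have hu : 0 ≤ b - 3 / 10 := by linarith
  have hv : 0 < 1 - b := by linarith
  have hpos : 0 < gr β (3735 / 1000) * (β * (1 + β) * (2 + β) * (3 + β) * (4 + β)) * (7 / 10) ^ 4 := by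
    rw [key]; positivity
  have hD : β * (1 + β) * (2 + β) * (3 + β) * (4 + β) < 0 := by
    have a1 : 0 < 1 + β := by linarith
    have a2 : 0 < 2 + β := by linarith
    have a3 : 0 < 3 + β := by linarith
    have a4 : 0 < 4 + β := by linarith
    have := mul_pos (mul_pos (mul_pos a1 a2) a3) a4
    nlinarith
  by_contra hcon
  push Not at hcon
  have : gr β (3735 / 1000) * (β * (1 + β) * (2 + β) * (3 + β) * (4 + β)) ≤ 0 :=
    mul_nonpos_of_nonneg_of_nonpos hcon hD.le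
  nlinarith

lemma gr_pos_at : 0 < gr (-268 / 1000) (3735 / 1000) := by
  unfold gr; norm_num

/-- sign of the resolvent at `749/100` -/
lemma T_neg {β : ℝ} (h1 : -3 / 10 ≤ β) (h2 : β < 0) :
    T (c3 β) (c2 β) (c1 β) (c0 β) (749 / 100) < 0 := by
  set b := -β with hb
  have hb0 : 0 < b := by linarith
  have hb3 : b ≤ 3 / 10 := by linarith
  have key : T (c3 β) (c2 β) (c1 β) (c0 β) (749 / 100) *
      (b ^ 3 * (1 - b) ^ 2 * (2 - b) * (3 - b) ^ 2) * (3 / 10) ^ 8 =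
      -((1152) * (3/10 - b)^8 + (63984627/3125) * b * (3/10 - b)^7 +
      (121201313993919/1250000000) * b^2 * (3/10 - b)^6 +
      (102726019070064689157/500000000000000) * b^3 * (3/10 - b)^5 +
      (2271186559596494734317/10000000000000000) * b^4 * (3/10 - b)^4 +
      (3354974333481397055139/25000000000000000) * b^5 * (3/10 - b)^3 +
      (19533831150667254579891/500000000000000000) * b^6 * (3/10 - b)^2 +
      (4276373140204682191857/1000000000000000000) * b^7 * (3/10 - b) +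
      (10799853620090117999661/100000000000000000000) * b^8) := by
    have e0 : β ≠ 0 := h2.ne
    have e1 : 1 + β ≠ 0 := by linarith
    have e2 : 2 + β ≠ 0 := by linarith
    have e3 : 3 + β ≠ 0 := by linarith
    rw [T, c3, c2, c1, c0, hb]
    field_simp
    ring
  have hv : 0 ≤ 3 / 10 - b := by linarith
  have hneg : T (c3 β) (c2 β) (c1 β) (c0 β) (749 / 100) *
      (b ^ 3 * (1 - b) ^ 2 * (2 - b) * (3 - b) ^ 2) * (3 / 10) ^ 8 < 0 := by
    rw [key, neg_lt_zero]; positivity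
  have hD : 0 < b ^ 3 * (1 - b) ^ 2 * (2 - b) * (3 - b) ^ 2 := by
    have a1 : 0 < 1 - b := by linarith
    have a2 : 0 < 2 - b := by linarith
    have a3 : 0 < 3 - b := by linarith
    positivity
  by_contra hcon
  push Not at hcon
  have : 0 ≤ T (c3 β) (c2 β) (c1 β) (c0 β) (749 / 100) *
      (b ^ 3 * (1 - b) ^ 2 * (2 - b) * (3 - b) ^ 2) := mul_nonneg hcon hD.le
  nlinarith

lemma T_pos_at : 0 < T (c3 (-1 / 3)) (c2 (-1 / 3)) (c1 (-1 / 3)) (c0 (-1 / 3)) (749 / 100) := by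
  unfold T c3 c2 c1 c0; norm_num

/-- there is no common minimiser for `α = 3` -/
theorem no_common {X : ℕ → ℝ → ℂ} (hX : IsBranchSystem 3 X) :
    ¬ ∃ β₀ ∈ Ioo (-1 : ℝ) 0, ∀ k, 1 ≤ k → k ≤ 2 → ∀ β ∈ Ioo (-1 : ℝ) 0, ‖X k β₀‖ ≤ ‖X k β‖ := by
  rintro ⟨β, hβ, hmin⟩
  obtain ⟨n, p, u, v, hn, hp, hX2, hX1, hg, q3, q2, q1, q0⟩ := data hX hβ
  rcases le_or_gt β (-3 / 10) with hc | hc
  · -- the positive real branch
    have hβ1 : (-268 / 1000 : ℝ) ∈ Ioo (-1 : ℝ) 0 := by constructor <;> norm_num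
    obtain ⟨n', p', u', v', hn', hp', hX2', hX1', hg', -⟩ := data hX hβ1
    have h1 := hmin 2 (by norm_num) (by norm_num) _ hβ1
    rw [hX2, hX2', Complex.norm_real, Complex.norm_real, Real.norm_eq_abs, Real.norm_eq_abs,
      abs_of_pos hp, abs_of_pos hp'] at h1
    have h2 : (3735 / 1000 : ℝ) < p := by
      by_contra hcon
      push Not at hcon
      rcases hcon.lt_or_eq with h | h
      · have := gr_pos_of hβ hp h hg.ge
        have := gr_neg hβ.1 hc
        linarith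
      · have := gr_neg hβ.1 hc
        rw [← h, hg] at this
        exact lt_irrefl _ this
    have h3 : p' < (3735 / 1000 : ℝ) := by
      by_contra hcon
      push Not at hcon
      rcases hcon.lt_or_eq with h | h
      · have := gr_pos_of hβ1 (by norm_num) h gr_pos_at.le
        linarith
      · have := gr_pos_at
        rw [h, hg'] at this
        exact lt_irrefl _ this
    linarith
  · -- the nonreal branch
    have hβ1 : (-1 / 3 : ℝ) ∈ Ioo (-1 : ℝ) 0 := by constructor <;> norm_num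
    obtain ⟨n', p', u', v', hn', hp', hX2', hX1', hg', q3', q2', q1', q0'⟩ := data hX hβ1
    have h1 := hmin 1 (by norm_num) (by norm_num) _ hβ1
    have hnorm : ∀ u v : ℝ, ‖(u + v * I : ℂ)‖ ^ 2 = u ^ 2 + v ^ 2 := by
      intro u v
      rw [← Complex.normSq_eq_norm_sq, Complex.normSq_add_mul_I]
    rw [hX1, hX1'] at h1
    have h2 : u ^ 2 + v ^ 2 ≤ u' ^ 2 + v' ^ 2 := by
      rw [← hnorm, ← hnorm]
      exact pow_le_pow_left₀ (norm_nonneg _) h1 2
    have h3 : (749 / 100 : ℝ) < u ^ 2 + v ^ 2 := by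
      have h := T_neg hc.le hβ.2
      rw [q3, q2, q1, q0, T_factor] at h
      by_contra hcon
      push Not at hcon
      have hnp : n * p < 0 := mul_neg_of_neg_of_pos hn hp
      have : 0 ≤ (749 / 100 - n * p) * (749 / 100 - (u ^ 2 + v ^ 2)) *
          ((749 / 100 - n * u) ^ 2 + (n * v) ^ 2) * ((749 / 100 - p * u) ^ 2 + (p * v) ^ 2) := by
        have a1 : 0 ≤ 749 / 100 - n * p := by linarith
        have a2 : 0 ≤ 749 / 100 - (u ^ 2 + v ^ 2) := by linarith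
        positivity
      linarith
    have h4 : u' ^ 2 + v' ^ 2 < (749 / 100 : ℝ) := by
      have h := T_pos_at
      rw [q3', q2', q1', q0', T_factor] at h
      by_contra hcon
      push Not at hcon
      have hnp : n' * p' < 0 := mul_neg_of_neg_of_pos hn' hp'
      have : (749 / 100 - n' * p') * (749 / 100 - (u' ^ 2 + v' ^ 2)) *
          ((749 / 100 - n' * u') ^ 2 + (n' * v') ^ 2) *
          ((749 / 100 - p' * u') ^ 2 + (p' * v') ^ 2) ≤ 0 := by
        have a1 : 0 ≤ 749 / 100 - n' * p' := by linarith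
        have a2 : 749 / 100 - (u' ^ 2 + v' ^ 2) ≤ 0 := by linarith
        have a3 : 0 ≤ ((749 / 100 - n' * u') ^ 2 + (n' * v') ^ 2) *
            ((749 / 100 - p' * u') ^ 2 + (p' * v') ^ 2) := by positivity
        have a4 := mul_nonpos_of_nonneg_of_nonpos a1 a2
        rw [mul_assoc]
        exact mul_nonpos_of_nonpos_of_nonneg a4 a3
      linarith
    linarith

/-! ### existence of the branches for `α = 3` -/

lemma smooth_root {g : ℝ × ℝ → ℝ} {p : ℝ → ℝ} {β₀ : ℝ} (hg : ContDiffAt ℝ ∞ g (β₀, p β₀))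
    (h0 : g (β₀, p β₀) = 0) {d : ℝ} (hd : HasDerivAt (fun x => g (β₀, x)) d (p β₀)) (hd0 : d ≠ 0)
    (huniq : ∀ᶠ z in 𝓝 (β₀, p β₀), g z = 0 → z.2 = p z.1) : ContDiffAt ℝ ∞ p β₀ := by
  have hne : (∞ : WithTop ℕ∞) ≠ 0 := by simp
  have hL : (fderiv ℝ g (β₀, p β₀) ∘L .inr ℝ ℝ ℝ) 1 = d := by
    have h1 : HasFDerivAt g (fderiv ℝ g (β₀, p β₀)) (β₀, p β₀) :=
      (hg.differentiableAt hne).hasFDerivAt
    have h2 : HasFDerivAt (fun x : ℝ => (β₀, x)) (ContinuousLinearMap.inr ℝ ℝ ℝ) (p β₀) :=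
      hasFDerivAt_prodMk_right β₀ (p β₀)
    have h3 := (h1.comp (p β₀) h2).hasDerivAt
    exact h3.unique hd
  have hinv : (fderiv ℝ g (β₀, p β₀) ∘L .inr ℝ ℝ ℝ).IsInvertible := by
    refine ⟨ContinuousLinearEquiv.unitsEquivAut ℝ (Units.mk0 d hd0), ?_⟩
    ext
    rw [hL]
    simp
  have e1 := hg.eventually_apply_implicitFunction hne hinv
  have e2 := hg.contDiffAt_implicitFunction hne hinv
  have e3 := hg.implicitFunction_apply_self hne hinv
  simp only at e1 e2 e3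
  refine e2.congr_of_eventuallyEq ?_
  have hcont : Tendsto (fun x => (x, hg.implicitFunction hne hinv x)) (𝓝 β₀) (𝓝 (β₀, p β₀)) := by
    have := (continuousAt_id.prodMk e2.continuousAt : ContinuousAt _ β₀)
    have h := this.tendsto
    simp only [id] at h
    rwa [e3] at h
  filter_upwards [e1, hcont.eventually huniq] with x hx1 hx2
  rw [h0] at hx1
  exact (hx2 hx1).symm

lemma gr_contDiffAt {β x : ℝ} (hβ : β ∈ Ioo (-1 : ℝ) 0) :
    ContDiffAt ℝ ∞ (fun z : ℝ × ℝ => gr z.1 z.2) (β, x) := by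
  obtain ⟨h1, h2⟩ := hβ
  have e0 : β ≠ 0 := h2.ne
  have e1 : 1 + β ≠ 0 := by linarith
  have e2 : 2 + β ≠ 0 := by linarith
  have e3 : 3 + β ≠ 0 := by linarith
  have e4 : 4 + β ≠ 0 := by linarith
  unfold gr
  have f1 : ContDiffAt ℝ ∞ (fun z : ℝ × ℝ => z.1) (β, x) := contDiffAt_fst
  have f2 : ContDiffAt ℝ ∞ (fun z : ℝ × ℝ => z.2) (β, x) := contDiffAt_snd
  refine ((((contDiffAt_const.div f1 e0).sub ((contDiffAt_const.mul f2).div
    (contDiffAt_const.add f1) e1)).add ((contDiffAt_const.mul (f2.pow 2)).div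
    (contDiffAt_const.add f1) e2)).sub ((contDiffAt_const.mul (f2.pow 3)).div
    (contDiffAt_const.add f1) e3)).add ((f2.pow 4).div (contDiffAt_const.add f1) e4)

lemma gr_deriv {β x : ℝ} (hβ : β ∈ Ioo (-1 : ℝ) 0) (hx : x ≠ 0) :
    HasDerivAt (gr β) (((1 - x) ^ 4 - β * gr β x) / x) x := by
  obtain ⟨h1, h2⟩ := hβ
  have e0 : β ≠ 0 := h2.ne
  have e1 : 1 + β ≠ 0 := by linarith
  have e2 : 2 + β ≠ 0 := by linarith
  have e3 : 3 + β ≠ 0 := by linarith
  have e4 : 4 + β ≠ 0 := by linarith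
  have d1 : HasDerivAt (fun x : ℝ => 1 / β - 4 * x / (1 + β) + 6 * x ^ 2 / (2 + β) -
      4 * x ^ 3 / (3 + β) + x ^ 4 / (4 + β))
      (0 - 4 * 1 / (1 + β) + 6 * (2 * x ^ 1 * 1) / (2 + β) - 4 * (3 * x ^ 2 * 1) / (3 + β) +
        (4 * x ^ 3 * 1) / (4 + β)) x := by
    refine ((((hasDerivAt_const x (1 / β)).sub
      (((hasDerivAt_id x).const_mul 4).div_const _)).add
      ((((hasDerivAt_id x).pow 2).const_mul 6).div_const _)).sub
      ((((hasDerivAt_id x).pow 3).const_mul 4).div_const _)).add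
      (((hasDerivAt_id x).pow 4).div_const _)
  refine HasDerivAt.congr_deriv (f := gr β) d1 ?_
  rw [gr]
  field_simp
  ring

lemma gr_one {β : ℝ} (hβ : β ∈ Ioo (-1 : ℝ) 0) : gr β 1 ≠ 0 := by
  obtain ⟨h1, h2⟩ := hβ
  have e0 : β ≠ 0 := h2.ne
  have e1 : 1 + β ≠ 0 := by linarith
  have e2 : 2 + β ≠ 0 := by linarith
  have e3 : 3 + β ≠ 0 := by linarith
  have e4 : 4 + β ≠ 0 := by linarith
  have : gr β 1 = 24 / (β * (1 + β) * (2 + β) * (3 + β) * (4 + β)) := by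
    rw [gr]; field_simp; ring
  rw [this]
  positivity

lemma gr_cont (β : ℝ) : Continuous (gr β) := by unfold gr; fun_prop

lemma gr_zero_neg {β : ℝ} (hβ : β ∈ Ioo (-1 : ℝ) 0) : gr β 0 < 0 := by
  have : gr β 0 = 1 / β := by unfold gr; simp
  rw [this]
  exact one_div_neg.mpr hβ.2

lemma exists_pos_root {β : ℝ} (hβ : β ∈ Ioo (-1 : ℝ) 0) : ∃ x, 0 < x ∧ gr β x = 0 := by
  have h0 := gr_zero_neg hβ
  obtain ⟨h1, h2⟩ := hβ
  have k1 : 1 < 1 / (1 + β) := by rw [lt_div_iff₀ (by linarith)]; linarith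
  have k2 : 1 < 1 / (-β) := by rw [lt_div_iff₀ (by linarith)]; linarith
  set K := 1 / (1 + β) + 1 / (-β) with hK
  have hK2 : 2 < K := by linarith
  set M := 16 * K with hM
  have hMpos : 0 < M := by linarith
  have hbig : 0 < gr β M := by
    unfold gr
    have b1 : -K ≤ 1 / β := by
      have : 1 / β = -(1 / (-β)) := by field_simp
      rw [this]; linarith
    have b2 : 4 * M / (1 + β) ≤ 4 * M * K := by
      have : 4 * M / (1 + β) = 4 * M * (1 / (1 + β)) := by ring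
      rw [this]
      apply mul_le_mul_of_nonneg_left _ (by linarith)
      linarith
    have b3 : 0 ≤ 6 * M ^ 2 / (2 + β) := by
      have : 0 < 2 + β := by linarith
      positivity
    have b4 : 4 * M ^ 3 / (3 + β) ≤ 2 * M ^ 3 := by
      rw [div_le_iff₀ (by linarith)]
      have : 0 < M ^ 3 := by positivity
      nlinarith
    have b5 : M ^ 4 / 4 ≤ M ^ 4 / (4 + β) := by
      apply div_le_div_of_nonneg_left (by positivity) (by linarith) (by linarith)
    have b6 : 0 < M ^ 4 / 4 - 2 * M ^ 3 - 4 * M * K - K := by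
      rw [hM]
      have e : (16 * K) ^ 4 / 4 - 2 * (16 * K) ^ 3 - 4 * (16 * K) * K - K =
        K * (16384 * K ^ 3 - 8192 * K ^ 2 - 64 * K - 1) := by ring
      rw [e]
      have : 0 < 16384 * K ^ 3 - 8192 * K ^ 2 - 64 * K - 1 := by nlinarith [sq_nonneg K, sq_nonneg (K - 2)]
      have hKpos : 0 < K := by linarith
      positivity
    linarith
  obtain ⟨x, hx, hx0⟩ := intermediate_value_Icc hMpos.le (gr_cont β).continuousOn
    (show (0:ℝ) ∈ Icc (gr β 0) (gr β M) from ⟨h0.le, hbig.le⟩)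
  refine ⟨x, lt_of_le_of_ne hx.1 ?_, hx0⟩
  rintro rfl
  linarith

lemma pos_root_unique {β x y : ℝ} (hβ : β ∈ Ioo (-1 : ℝ) 0) (hx : 0 < x) (hy : 0 < y)
    (h1 : gr β x = 0) (h2 : gr β y = 0) : x = y := by
  rcases lt_trichotomy x y with h | h | h
  · have := gr_pos_of hβ hx h h1.ge; linarith
  · exact h
  · have := gr_pos_of hβ hy h h2.ge; linarith

lemma gr_anti {β x y : ℝ} (hβ : β ∈ Ioo (-1 : ℝ) 0) (hxy : x < y) (hy : y ≤ 0) :
    gr β y < gr β x := by
  obtain ⟨h1, h2⟩ := hβ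
  have a1 : 0 < 1 + β := by linarith
  have a2 : 0 < 2 + β := by linarith
  have a3 : 0 < 3 + β := by linarith
  have a4 : 0 < 4 + β := by linarith
  have hlin : 4 * (-y) / (1 + β) < 4 * (-x) / (1 + β) := by
    apply div_lt_div_of_pos_right _ a1; linarith
  have hy' : 0 ≤ -y := by linarith
  have hxy' : -y ≤ -x := by linarith
  have q2 : 6 * (-y) ^ 2 / (2 + β) ≤ 6 * (-x) ^ 2 / (2 + β) := by gcongr
  have q3 : 4 * (-y) ^ 3 / (3 + β) ≤ 4 * (-x) ^ 3 / (3 + β) := by gcongr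
  have q4 : (-y) ^ 4 / (4 + β) ≤ (-x) ^ 4 / (4 + β) := by gcongr
  have e : ∀ z, gr β z = 1 / β + 4 * (-z) / (1 + β) + 6 * (-z) ^ 2 / (2 + β) +
      4 * (-z) ^ 3 / (3 + β) + (-z) ^ 4 / (4 + β) := by intro z; unfold gr; ring
  rw [e, e]
  linarith

lemma exists_neg_root {β : ℝ} (hβ : β ∈ Ioo (-1 : ℝ) 0) : ∃ x, x < 0 ∧ gr β x = 0 := by
  have h0 := gr_zero_neg hβ
  obtain ⟨h1, h2⟩ := hβ
  set y := (1 + β) / (4 * β) with hy
  have hyneg : y < 0 := by
    rw [hy]; apply div_neg_of_pos_of_neg <;> linarith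
  have hbig : 0 ≤ gr β y := by
    have a1 : 0 < 1 + β := by linarith
    have a2 : 0 < 2 + β := by linarith
    have a3 : 0 < 3 + β := by linarith
    have a4 : 0 < 4 + β := by linarith
    have e : gr β y = 1 / β + 4 * (-y) / (1 + β) + 6 * (-y) ^ 2 / (2 + β) +
      4 * (-y) ^ 3 / (3 + β) + (-y) ^ 4 / (4 + β) := by unfold gr; ring
    have e2 : 1 / β + 4 * (-y) / (1 + β) = 0 := by
      rw [hy]; field_simp [h2.ne, a1.ne']; ring
    have hy' : 0 ≤ -y := by linarith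
    rw [e, e2]
    positivity
  obtain ⟨x, hx, hx0⟩ := intermediate_value_Icc' hyneg.le (gr_cont β).continuousOn
    (show (0:ℝ) ∈ Icc (gr β 0) (gr β y) from ⟨h0.le, hbig⟩)
  refine ⟨x, lt_of_le_of_ne hx.2 ?_, hx0⟩
  rintro rfl
  linarith

lemma neg_root_unique {β x y : ℝ} (hβ : β ∈ Ioo (-1 : ℝ) 0) (hx : x < 0) (hy : y < 0)
    (h1 : gr β x = 0) (h2 : gr β y = 0) : x = y := by
  rcases lt_trichotomy x y with h | h | h
  · have := gr_anti hβ h hy.le; linarith
  · exact h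
  · have := gr_anti hβ h hx.le; linarith

/-- the two real branches -/
lemma real_branches : ∃ n p : ℝ → ℝ, ∀ β ∈ Ioo (-1 : ℝ) 0, n β < 0 ∧ gr β (n β) = 0 ∧ 0 < p β ∧
    gr β (p β) = 0 ∧ ContDiffAt ℝ ∞ n β ∧ ContDiffAt ℝ ∞ p β := by
  classical
  let n : ℝ → ℝ := fun β => if h : β ∈ Ioo (-1 : ℝ) 0 then (exists_neg_root h).choose else 0
  let p : ℝ → ℝ := fun β => if h : β ∈ Ioo (-1 : ℝ) 0 then (exists_pos_root h).choose else 0
  have hn : ∀ β ∈ Ioo (-1 : ℝ) 0, n β < 0 ∧ gr β (n β) = 0 := by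
    intro β h
    have : n β = (exists_neg_root h).choose := by simp only [n]; rw [dif_pos h]
    rw [this]; exact (exists_neg_root h).choose_spec
  have hp : ∀ β ∈ Ioo (-1 : ℝ) 0, 0 < p β ∧ gr β (p β) = 0 := by
    intro β h
    have : p β = (exists_pos_root h).choose := by simp only [p]; rw [dif_pos h]
    rw [this]; exact (exists_pos_root h).choose_spec
  refine ⟨n, p, fun β hβ => ⟨(hn β hβ).1, (hn β hβ).2, (hp β hβ).1, (hp β hβ).2, ?_, ?_⟩⟩
  · have hne : n β ≠ 0 := (hn β hβ).1.ne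
    refine smooth_root (g := fun z => gr z.1 z.2) (gr_contDiffAt hβ) (hn β hβ).2
      (gr_deriv hβ hne) ?_ ?_
    · rw [(hn β hβ).2, mul_zero, sub_zero]
      have : 1 - n β ≠ 0 := by have := (hn β hβ).1; linarith
      positivity
    · have o1 : ∀ᶠ z : ℝ × ℝ in 𝓝 (β, n β), z.1 ∈ Ioo (-1 : ℝ) 0 :=
        continuousAt_fst.eventually (Ioo_mem_nhds hβ.1 hβ.2)
      have o2 : ∀ᶠ z : ℝ × ℝ in 𝓝 (β, n β), z.2 < 0 :=
        continuousAt_snd.eventually (gt_mem_nhds (hn β hβ).1)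
      filter_upwards [o1, o2] with z hz1 hz2 hz
      exact neg_root_unique hz1 hz2 (hn _ hz1).1 hz (hn _ hz1).2
  · have hne : p β ≠ 0 := (hp β hβ).1.ne'
    refine smooth_root (g := fun z => gr z.1 z.2) (gr_contDiffAt hβ) (hp β hβ).2
      (gr_deriv hβ hne) ?_ ?_
    · rw [(hp β hβ).2, mul_zero, sub_zero]
      have : 1 - p β ≠ 0 := by
        intro h
        have h1 : p β = 1 := by linarith
        have := (hp β hβ).2
        rw [h1] at this
        exact gr_one hβ this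
      positivity
    · have o1 : ∀ᶠ z : ℝ × ℝ in 𝓝 (β, p β), z.1 ∈ Ioo (-1 : ℝ) 0 :=
        continuousAt_fst.eventually (Ioo_mem_nhds hβ.1 hβ.2)
      have o2 : ∀ᶠ z : ℝ × ℝ in 𝓝 (β, p β), 0 < z.2 :=
        continuousAt_snd.eventually (lt_mem_nhds (hp β hβ).1)
      filter_upwards [o1, o2] with z hz1 hz2 hz
      exact pos_root_unique hz1 hz2 (hp _ hz1).1 hz (hp _ hz1).2

/-- real form of the quartic -/
lemma quartic_real {β : ℝ} (hβ : β ∈ Ioo (-1 : ℝ) 0) (x : ℝ) : (4 + β) * gr β x =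
    x ^ 4 + c3 β * x ^ 3 + c2 β * x ^ 2 + c1 β * x + c0 β := by
  obtain ⟨h1, h2⟩ := hβ
  have e0 : β ≠ 0 := h2.ne
  have e1 : 1 + β ≠ 0 := by linarith
  have e2 : 2 + β ≠ 0 := by linarith
  have e3 : 3 + β ≠ 0 := by linarith
  have e4 : 4 + β ≠ 0 := by linarith
  rw [gr, c3, c2, c1, c0]
  field_simp
  ring

/-- the nonreal quadratic factor -/
lemma factor {β n p : ℝ} (hβ : β ∈ Ioo (-1 : ℝ) 0) (hn : n < 0) (hp : 0 < p) (hgn : gr β n = 0)
    (hgp : gr β p = 0) {t S : ℝ} (ht : t = -c3 β - n - p) (hS : S = c2 β - (n + p) * t - n * p) :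
    c1 β = -((n + p) * S + n * p * t) ∧ c0 β = n * p * S ∧ 0 < S - t ^ 2 / 4 := by
  have qn := quartic_real hβ n
  have qp := quartic_real hβ p
  rw [hgn, mul_zero] at qn
  rw [hgp, mul_zero] at qp
  have h3 : c3 β = -t - n - p := by linarith
  have h2 : c2 β = S + (n + p) * t + n * p := by linarith
  have hnp : n - p ≠ 0 := by linarith
  have hc1 : c1 β = -((n + p) * S + n * p * t) := by
    apply mul_left_cancel₀ hnp
    rw [h3, h2] at qn qp
    linear_combination qp - qn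
  have hc0 : c0 β = n * p * S := by
    rw [h3, h2, hc1] at qn
    linear_combination -qn
  refine ⟨hc1, hc0, ?_⟩
  by_contra hcon
  push Not at hcon
  -- a real root of the quadratic factor
  set D := t ^ 2 / 4 - S with hD
  have hD0 : 0 ≤ D := by linarith
  set r := t / 2 + √D with hr
  have hsq : √D ^ 2 = D := Real.sq_sqrt hD0
  have hrr : r ^ 2 - t * r + S = 0 := by
    rw [hr]; nlinarith
  have hfac : ∀ x, (4 + β) * gr β x = (x - n) * (x - p) * (x ^ 2 - t * x + S) := by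
    intro x
    rw [quartic_real hβ, h3, h2, hc1, hc0]; ring
  have h4 : (4:ℝ) + β ≠ 0 := by have := hβ.1; linarith
  have hgr : gr β r = 0 := by
    have := hfac r
    rw [hrr, mul_zero] at this
    rcases mul_eq_zero.mp this with h | h
    · exact absurd h h4
    · exact h
  have hc0neg : c0 β < 0 := by
    unfold c0
    apply div_neg_of_pos_of_neg
    · have := hβ.1; linarith
    · exact hβ.2
  have hr0 : r ≠ 0 := by
    intro h
    rw [h] at hrr
    have hS0 : S = 0 := by linarith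
    rw [hS0, mul_zero] at hc0
    linarith
  -- the derivative of `gr` vanishes at `r`
  have hder : HasDerivAt (fun x => (4 + β) * gr β x) ((4 + β) * (((1 - r) ^ 4 - β * gr β r) / r)) r :=
    (gr_deriv hβ hr0).const_mul _
  have hder2 : HasDerivAt (fun x : ℝ => (x - n) * (x - p) * (x ^ 2 - t * x + S))
      (((1 * (r - p) + (r - n) * 1) * (r ^ 2 - t * r + S)) +
        (r - n) * (r - p) * (2 * r ^ 1 * 1 - t * 1 + 0)) r := by
    have d1 : HasDerivAt (fun x : ℝ => x - n) 1 r := (hasDerivAt_id r).sub_const n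
    have d2 : HasDerivAt (fun x : ℝ => x - p) 1 r := (hasDerivAt_id r).sub_const p
    have d3 : HasDerivAt (fun x : ℝ => x ^ 2 - t * x + S) (2 * r ^ 1 * 1 - t * 1 + 0) r :=
      (((hasDerivAt_id r).pow 2).sub ((hasDerivAt_id r).const_mul t)).add (hasDerivAt_const r S)
    exact (d1.mul d2).mul d3
  have hrnp : r = n ∨ r = p := by
    rcases lt_or_gt_of_ne hr0 with h | h
    · left; exact neg_root_unique hβ h hn hgr hgn
    · right; exact pos_root_unique hβ h hp hgr hgp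
  have hzero : (r - n) * (r - p) = 0 := by
    rcases hrnp with h | h
    · rw [h]; ring
    · rw [h]; ring
  have heq : (fun x => (4 + β) * gr β x) = (fun x : ℝ => (x - n) * (x - p) * (x ^ 2 - t * x + S)) :=
    funext hfac
  rw [heq] at hder
  have huniq := hder.unique hder2
  rw [hrr, hzero, hgr] at huniq
  have h5 : (1 - r) ^ 4 = 0 := by
    have : (4 + β) * (((1 - r) ^ 4 - β * 0) / r) = 0 := by rw [huniq]; ring
    rcases mul_eq_zero.mp this with h | h
    · exact absurd h h4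
    · rcases div_eq_zero_iff.mp h with h | h
      · linarith
      · exact absurd h hr0
  have h6 : r = 1 := by
    have := pow_eq_zero_iff (n := 4) (by norm_num) |>.mp h5
    linarith
  rw [h6] at hgr
  exact gr_one hβ hgr

/-- **The branches exist** for `α = 3`. -/
theorem exists_branches : ∃ X : ℕ → ℝ → ℂ, IsBranchSystem 3 X := by
  obtain ⟨n, p, h⟩ := real_branches
  set t : ℝ → ℝ := fun β => -c3 β - n β - p β with ht
  set S : ℝ → ℝ := fun β => c2 β - (n β + p β) * t β - n β * p β with hS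
  set q : ℝ → ℂ := fun β => ((t β / 2 : ℝ) : ℂ) + ((√(S β - t β ^ 2 / 4) : ℝ) : ℂ) * I with hq
  have hD : ∀ β ∈ Ioo (-1 : ℝ) 0, 0 < S β - t β ^ 2 / 4 := fun β hβ => by
    obtain ⟨h1, h2, h3, h4, -, -⟩ := h β hβ
    exact (factor hβ h1 h3 h2 h4 rfl rfl).2.2
  have hc3 : ∀ β ∈ Ioo (-1 : ℝ) 0, ContDiffAt ℝ ∞ c3 β := by
    intro β hβ
    have e3 : 3 + β ≠ 0 := by have := hβ.1; linarith
    unfold c3
    exact (contDiffAt_const.mul (contDiffAt_const.add contDiffAt_id)).div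
      (contDiffAt_const.add contDiffAt_id) e3
  have hc2 : ∀ β ∈ Ioo (-1 : ℝ) 0, ContDiffAt ℝ ∞ c2 β := by
    intro β hβ
    have e2 : 2 + β ≠ 0 := by have := hβ.1; linarith
    unfold c2
    exact (contDiffAt_const.mul (contDiffAt_const.add contDiffAt_id)).div
      (contDiffAt_const.add contDiffAt_id) e2
  have hts : ∀ β ∈ Ioo (-1 : ℝ) 0, ContDiffAt ℝ ∞ t β := by
    intro β hβ
    obtain ⟨-, -, -, -, h5, h6⟩ := h β hβ
    exact ((hc3 β hβ).neg.sub h5).sub h6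
  have hSs : ∀ β ∈ Ioo (-1 : ℝ) 0, ContDiffAt ℝ ∞ S β := by
    intro β hβ
    obtain ⟨-, -, -, -, h5, h6⟩ := h β hβ
    exact ((hc2 β hβ).sub ((h5.add h6).mul (hts β hβ))).sub (h5.mul h6)
  have hof : ∀ {f : ℝ → ℝ} {β : ℝ}, ContDiffAt ℝ ∞ f β → ContDiffAt ℝ ∞ (fun β => ((f β : ℝ) : ℂ)) β := by
    intro f β hf
    exact Complex.ofRealCLM.contDiff.contDiffAt.comp β hf
  have hqs : ∀ β ∈ Ioo (-1 : ℝ) 0, ContDiffAt ℝ ∞ q β := by
    intro β hβ
    have a1 : ContDiffAt ℝ ∞ (fun β => √(S β - t β ^ 2 / 4)) β :=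
      ((hSs β hβ).sub (((hts β hβ).pow 2).div_const 4)).sqrt (hD β hβ).ne'
    exact (hof ((hts β hβ).div_const 2)).add ((hof a1).mul contDiffAt_const)
  have hconjs : ∀ β ∈ Ioo (-1 : ℝ) 0, ContDiffAt ℝ ∞ (fun β => conj (q β)) β := by
    intro β hβ
    exact Complex.conjCLE.contDiff.contDiffAt.comp β (hqs β hβ)
  set X : ℕ → ℝ → ℂ := fun k β =>
    if k = 0 then (n β : ℂ) else if k = 1 then q β else if k = 2 then (p β : ℂ) else conj (q β) with hX
  have X0 : ∀ β, X 0 β = (n β : ℂ) := fun β => by simp [hX]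
  have X1 : ∀ β, X 1 β = q β := fun β => by simp [hX]
  have X2 : ∀ β, X 2 β = (p β : ℂ) := fun β => by simp [hX]
  have X3 : ∀ β, X 3 β = conj (q β) := fun β => by simp [hX]
  have hqim : ∀ β ∈ Ioo (-1 : ℝ) 0, 0 < (q β).im := by
    intro β hβ
    have : (q β).im = √(S β - t β ^ 2 / 4) := by simp [hq]
    rw [this]; exact Real.sqrt_pos.mpr (hD β hβ)
  refine ⟨X, ?_, ?_, ?_, ?_, ?_⟩
  · intro k hk β hβ
    apply ContDiffAt.contDiffWithinAt
    obtain ⟨-, -, -, -, h5, h6⟩ := h β hβ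
    interval_cases k
    · exact (hof h5).congr_of_eventuallyEq (Eventually.of_forall X0)
    · exact (hqs β hβ).congr_of_eventuallyEq (Eventually.of_forall X1)
    · exact (hof h6).congr_of_eventuallyEq (Eventually.of_forall X2)
    · exact (hconjs β hβ).congr_of_eventuallyEq (Eventually.of_forall X3)
  · intro β hβ ξ
    obtain ⟨h1, h2, h3, h4, -, -⟩ := h β hβ
    obtain ⟨f1, f0, -⟩ := factor hβ h1 h3 h2 h4 (t := t β) (S := S β) rfl rfl
    have e4 : ((4:ℂ) + β) ≠ 0 := by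
      have : (4:ℝ) + β ≠ 0 := by have := hβ.1; linarith
      exact_mod_cast this
    have g3 : c3 β = -t β - n β - p β := by simp only [ht]; ring
    have g2 : c2 β = S β + (n β + p β) * t β + n β * p β := by simp only [hS]; ring
    have hfac : (4 + β) * G 3 β ξ = (ξ - n β) * (ξ - p β) * ((ξ - q β) * (ξ - conj (q β))) := by
      have hqq : (ξ - q β) * (ξ - conj (q β)) = ξ ^ 2 - t β * ξ + S β := by
        have hI : (I:ℂ) ^ 2 = -1 := Complex.I_sq
        have hs : ((√(S β - t β ^ 2 / 4) : ℝ) : ℂ) ^ 2 = ((S β - t β ^ 2 / 4 : ℝ) : ℂ) := by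
          rw [← Complex.ofReal_pow, Real.sq_sqrt (hD β hβ).le]
        have hc : conj (q β) = ((t β / 2 : ℝ) : ℂ) - ((√(S β - t β ^ 2 / 4) : ℝ) : ℂ) * I := by
          simp only [hq]
          rw [map_add, map_mul, Complex.conj_ofReal, Complex.conj_ofReal, Complex.conj_I]
          ring
        rw [hc]
        simp only [hq]
        push_cast at hs ⊢
        linear_combination (-((√(S β - t β ^ 2 / 4) : ℝ) : ℂ) ^ 2) * hI + hs
      have hquart := quartic hβ ξ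
      have k3 : ((-4 * (4 + β) / (3 + β) : ℝ) : ℂ) = ((c3 β : ℝ) : ℂ) := rfl
      have k2 : ((6 * (4 + β) / (2 + β) : ℝ) : ℂ) = ((c2 β : ℝ) : ℂ) := rfl
      have k1 : ((-4 * (4 + β) / (1 + β) : ℝ) : ℂ) = ((c1 β : ℝ) : ℂ) := rfl
      have k0 : (((4 + β) / β : ℝ) : ℂ) = ((c0 β : ℝ) : ℂ) := rfl
      rw [hquart, k3, k2, k1, k0, hqq, g3, g2, f1, f0]
      push_cast
      ring
    constructor
    · intro hG
      rw [hG, mul_zero] at hfac
      rcases mul_eq_zero.mp hfac.symm with h | h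
      · rcases mul_eq_zero.mp h with h | h
        · exact ⟨0, by norm_num, by rw [X0]; exact (sub_eq_zero.mp h).symm⟩
        · exact ⟨2, by norm_num, by rw [X2]; exact (sub_eq_zero.mp h).symm⟩
      · rcases mul_eq_zero.mp h with h | h
        · exact ⟨1, by norm_num, by rw [X1]; exact (sub_eq_zero.mp h).symm⟩
        · exact ⟨3, by norm_num, by rw [X3]; exact (sub_eq_zero.mp h).symm⟩
    · rintro ⟨k, hk, hkξ⟩
      have hz : (4 + β) * G 3 β ξ = 0 := by
        rw [hfac, ← hkξ]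
        interval_cases k
        · rw [X0]; ring
        · rw [X1]; ring
        · rw [X2]; ring
        · rw [X3]; ring
      rcases mul_eq_zero.mp hz with h | h
      · exact absurd h e4
      · exact h
  · intro β hβ j hj k hk hjk
    obtain ⟨h1, h2, h3, h4, -, -⟩ := h β hβ
    have him := hqim β hβ
    have i0 : (X 0 β).im = 0 := by rw [X0]; simp
    have i1 : 0 < (X 1 β).im := by rw [X1]; exact him
    have i2 : (X 2 β).im = 0 := by rw [X2]; simp
    have i3 : (X 3 β).im < 0 := by rw [X3, Complex.conj_im]; linarith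
    have r0 : (X 0 β).re < 0 := by rw [X0]; simpa using h1
    have r2 : 0 < (X 2 β).re := by rw [X2]; simpa using h3
    have him' := congrArg Complex.im hjk
    have hre' := congrArg Complex.re hjk
    interval_cases j <;> interval_cases k <;> first | rfl | (exfalso; linarith)
  · intro β hβ
    obtain ⟨h1, -, -, -, -, -⟩ := h β hβ
    rw [X0]
    exact ⟨by simp, by simpa using h1⟩
  · intro k hk1 hk3 β hβ
    interval_cases k
    · show X 3 β = conj (X 1 β)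
      rw [X3, X1]
    · show X 2 β = conj (X 2 β)
      rw [X2]; simp
    · show X 1 β = conj (X 3 β)
      rw [X3, X1]; simp

/-- **The minimiser cannot be chosen independently of the branch.** For `α = 3` the zero branches
`X 0, ..., X 3` of `G_{3,β}` exist, and for every such system of branches there is no
`β₀` in `(-1,0)` that minimises both `|X 1|` and `|X 2|` over `(-1,0)`. -/
theorem result : (∃ X : ℕ → ℝ → ℂ, IsBranchSystem 3 X) ∧
    ∀ X : ℕ → ℝ → ℂ, IsBranchSystem 3 X →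
      ¬ ∃ β₀ ∈ Ioo (-1 : ℝ) 0, ∀ k, 1 ≤ k → k ≤ 2 → ∀ β ∈ Ioo (-1 : ℝ) 0, ‖X k β₀‖ ≤ ‖X k β‖ :=
  ⟨exists_branches, fun _ hX => no_common hX⟩

end Pool.Agent.Results.MP_9fecad_an.NoCommonMinimiser
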